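import Pool.Agent.MP83fe1a.Ess
import Pool.Agent.MP83fe1a.MaxPr
import Pool.Agent.MP83fe1a.Energy

set_option autoImplicit false

open Set Filter Topology MeasureTheory

namespace Pool.Agent.Results.MP_83fe1a_an.RangeDefect

/-- The set `H^∞(V)` of bounded analytic functions on the open set `V`, as functions on `V`. -/
def Hinf (V : Set ℂ) : Set (V → ℂ) :=
  {f | (∃ F : ℂ → ℂ, DifferentiableOn ℂ F V ∧ ∀ z : V, f z = F z) ∧ ∃ C : ℝ, ∀ z, ‖f z‖ ≤ C}

/-- The maximal ideal space `M(V)`: the set of the nonzero multiplicative linear functionals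
`φ : H^∞(V) → ℂ` (for the pointwise operations). Its weak-star topology is the topology of pointwise
convergence, i.e. the one induced by the product topology of `H^∞(V) → ℂ`. -/
def MaxIdeal (V : Set ℂ) : Set (Hinf V → ℂ) :=
  {φ | (∃ f, φ f ≠ 0) ∧
    (∀ f g h : Hinf V, (∀ z, h.1 z = f.1 z + g.1 z) → φ h = φ f + φ g) ∧
    (∀ (c : ℂ) (f h : Hinf V), (∀ z, h.1 z = c * f.1 z) → φ h = c * φ f) ∧
    (∀ f g h : Hinf V, (∀ z, h.1 z = f.1 z * g.1 z) → φ h = φ f * φ g)}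

/-- The fibre `M_ζ`: the characters `φ ∈ M(V)` with `φ(z) = ζ` for the coordinate function `z`. -/
def fibre (V : Set ℂ) (ζ : ℂ) : Set (Hinf V → ℂ) :=
  {φ | φ ∈ MaxIdeal V ∧ ∃ e : Hinf V, (∀ z : V, e.1 z = z) ∧ φ e = ζ}

/-- A closed boundary of `H^∞(V)`: a closed subset `Γ` of `M(V)` on which the modulus of (the Gelfand
transform of) every `f ∈ H^∞(V)` attains its maximum over `M(V)`. -/
def IsClosedBoundary (V : Set ℂ) (Γ : Set (Hinf V → ℂ)) : Prop :=
  Γ ⊆ MaxIdeal V ∧ IsClosed Γ ∧ ∀ (f : Hinf V), ∀ φ ∈ MaxIdeal V, ∃ ψ ∈ Γ, ‖φ f‖ ≤ ‖ψ f‖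

/-- The Shilov boundary `Γ_V`: the intersection of all closed boundaries. -/
def shilov (V : Set ℂ) : Set (Hinf V → ℂ) := {φ | ∀ Γ, IsClosedBoundary V Γ → φ ∈ Γ}

/-- The range `R(f, ζ)`: the values `w` with `f(x_n) = w` for a sequence of points `x_n` of `V`
tending to `ζ`. -/
def rangeAt (V : Set ℂ) (f : Hinf V) (ζ : ℂ) : Set ℂ :=
  {w | ∃ x : ℕ → V, Tendsto (fun n => (x n : ℂ)) atTop (𝓝 ζ) ∧ ∀ n, f.1 (x n) = w}

/-- The set `f(A)` of values of (the Gelfand transform of) `f` on a set `A` of characters. -/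
def valuesOn (V : Set ℂ) (f : Hinf V) (A : Set (Hinf V → ℂ)) : Set ℂ :=
  {w | ∃ φ ∈ A, φ f = w}

/-- The range defect `f(M_ζ) \ [f(V_ζ) ∪ R(f, ζ)]`, where `V_ζ` is the intersection of the Shilov
boundary and the fibre `M_ζ`. -/
def rangeDefect (V : Set ℂ) (f : Hinf V) (ζ : ℂ) : Set ℂ :=
  valuesOn V f (fibre V ζ) \ (valuesOn V f (shilov V ∩ fibre V ζ) ∪ rangeAt V f ζ)

/-- `ζ` is an essential singularity of `g ∈ H^∞(V)`: there are no disc `D` centred at `ζ` and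
analytic function on `V ∪ D` agreeing with `g` on `V`. -/
def IsEssSing (V : Set ℂ) (g : Hinf V) (ζ : ℂ) : Prop :=
  ¬ ∃ r > 0, ∃ G : ℂ → ℂ, DifferentiableOn ℂ G (V ∪ Metric.ball ζ r) ∧ ∀ z : V, G z = g.1 z

/-- The positive part of the logarithmic kernel `log (1 / |z - w|)`, `⊤` on the diagonal. -/
noncomputable def kerPos (z w : ℂ) : ENNReal :=
  if z = w then ⊤ else ENNReal.ofReal (-Real.log ‖z - w‖)

/-- The negative part of the logarithmic kernel. -/
noncomputable def kerNeg (z w : ℂ) : ENNReal := ENNReal.ofReal (Real.log ‖z - w‖)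

/-- The logarithmic energy `∬ log (1 / |z - w|) dμ(z) dμ(w)`. -/
noncomputable def logEnergy (μ : Measure ℂ) : EReal :=
  ((∫⁻ z, ∫⁻ w, kerPos z w ∂μ ∂μ : ENNReal) : EReal) -
    ((∫⁻ z, ∫⁻ w, kerNeg z w ∂μ ∂μ : ENNReal) : EReal)

/-- The (inner) logarithmic capacity: the supremum of `exp (- energy of μ)` over the probability
measures `μ` carried by compact subsets `K` of `S`. -/
noncomputable def logCap (S : Set ℂ) : ENNReal :=
  ⨆ (K : Set ℂ) (_ : IsCompact K ∧ K ⊆ S) (μ : Measure ℂ) (_ : IsProbabilityMeasure μ ∧ μ Kᶜ = 0),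
    EReal.exp (-(logEnergy μ))

/-! ### Generalities on `H^∞(V)` -/

/-- element of `H^∞(V)` from a bounded analytic function -/
noncomputable def mk {V : Set ℂ} (F : ℂ → ℂ) (hF : DifferentiableOn ℂ F V) (C : ℝ)
    (hC : ∀ z ∈ V, ‖F z‖ ≤ C) : Hinf V :=
  ⟨fun z => F z, ⟨F, hF, fun _ => rfl⟩, C, fun z => hC z z.2⟩

/-- constants -/
noncomputable def cst {V : Set ℂ} (c : ℂ) : Hinf V := mk (fun _ => c) (differentiableOn_const c) ‖c‖ fun _ _ => le_rfl

theorem map_one {V : Set ℂ} {φ : Hinf V → ℂ} (hφ : φ ∈ MaxIdeal V) : φ (cst 1) = 1 := by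
  obtain ⟨⟨f, hf⟩, -, -, hmul⟩ := hφ
  have h := hmul f (cst 1) f (fun z => (mul_one _).symm)
  have h2 : φ f * (φ (cst 1) - 1) = 0 := by linear_combination -h
  exact sub_eq_zero.1 ((mul_eq_zero.1 h2).resolve_left hf)

theorem map_cst {V : Set ℂ} {φ : Hinf V → ℂ} (hφ : φ ∈ MaxIdeal V) (c : ℂ) : φ (cst c) = c := by
  have h := hφ.2.2.1 c (cst 1) (cst c) (fun z => (mul_one c).symm)
  rw [map_one hφ, mul_one] at h
  exact h

theorem norm_le_of_bound {V : Set ℂ} {φ : Hinf V → ℂ} (hφ : φ ∈ MaxIdeal V) (f : Hinf V) {C : ℝ}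
    (hC : ∀ z, ‖f.1 z‖ ≤ C) : ‖φ f‖ ≤ C := by
  by_contra hcon
  push Not at hcon
  set c := φ f with hc
  obtain ⟨F, hF, hFf⟩ := f.2.1
  have hlow : ∀ z ∈ V, ‖c‖ - C ≤ ‖F z - c‖ := by
    intro z hz
    have h1 := hC ⟨z, hz⟩
    rw [hFf] at h1
    have h2 := norm_sub_norm_le c (F z)
    rw [norm_sub_rev] at h2
    have h3 : ‖F z‖ ≤ C := h1
    linarith
  have hpos : 0 < ‖c‖ - C := by linarith
  have hne : ∀ z ∈ V, F z - c ≠ 0 := fun z hz => norm_pos_iff.1 (hpos.trans_le (hlow z hz))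
  have hbd : ∀ z ∈ V, ‖F z - c‖ ≤ C + ‖c‖ := by
    intro z hz
    have h1 := hC ⟨z, hz⟩
    rw [hFf] at h1
    exact (norm_sub_le _ _).trans (add_le_add h1 le_rfl)
  set h : Hinf V := mk (fun z => F z - c) (hF.sub_const c) _ hbd with hh
  set g : Hinf V := mk (fun z => (F z - c)⁻¹) ((hF.sub_const c).inv hne) (‖c‖ - C)⁻¹ (by
    intro z hz
    rw [norm_inv]
    exact inv_anti₀ hpos (hlow z hz)) with hg
  have h1 := hφ.2.2.2 h g (cst 1) (fun z => (mul_inv_cancel₀ (hne z z.2)).symm)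
  have h2 := hφ.2.1 h (cst c) f (fun z => by
    show f.1 z = F z - c + c
    rw [hFf]; ring)
  rw [map_cst hφ] at h2
  have h3 : φ h = 0 := by linear_combination -h2
  rw [h3, zero_mul, map_one hφ] at h1
  exact one_ne_zero h1

theorem isClosed_MaxIdeal (V : Set ℂ) : IsClosed (MaxIdeal V) := by
  have heq : MaxIdeal V = {φ : Hinf V → ℂ | φ (cst 1) = 1} ∩
      ({φ | ∀ f g h : Hinf V, (∀ z, h.1 z = f.1 z + g.1 z) → φ h = φ f + φ g} ∩
      ({φ | ∀ (c : ℂ) (f h : Hinf V), (∀ z, h.1 z = c * f.1 z) → φ h = c * φ f} ∩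
      {φ | ∀ f g h : Hinf V, (∀ z, h.1 z = f.1 z * g.1 z) → φ h = φ f * φ g})) := by
    ext φ
    constructor
    · intro hφ
      exact ⟨map_one hφ, hφ.2⟩
    · rintro ⟨h1, h2⟩
      exact ⟨⟨cst 1, by rw [show φ (cst 1) = 1 from h1]; exact one_ne_zero⟩, h2⟩
  have hc : ∀ f : Hinf V, Continuous fun φ : Hinf V → ℂ => φ f := fun f => continuous_apply f
  rw [heq]
  refine (isClosed_eq (hc _) continuous_const).inter (IsClosed.inter ?_ (IsClosed.inter ?_ ?_))
  · simp only [ofPred_forall]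
    exact isClosed_iInter fun f => isClosed_iInter fun g => isClosed_iInter fun h =>
      isClosed_iInter fun _ => isClosed_eq (hc h) ((hc f).add (hc g))
  · simp only [ofPred_forall]
    exact isClosed_iInter fun c => isClosed_iInter fun f => isClosed_iInter fun h =>
      isClosed_iInter fun _ => isClosed_eq (hc h) (continuous_const.mul (hc f))
  · simp only [ofPred_forall]
    exact isClosed_iInter fun f => isClosed_iInter fun g => isClosed_iInter fun h =>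
      isClosed_iInter fun _ => isClosed_eq (hc h) ((hc f).mul (hc g))

theorem isCompact_MaxIdeal (V : Set ℂ) : IsCompact (MaxIdeal V) := by
  have hex : ∀ f : Hinf V, ∃ C : ℝ, ∀ z, ‖f.1 z‖ ≤ C := fun f => f.2.2
  choose C hC using hex
  have h1 : IsCompact (Set.pi univ fun f : Hinf V => Metric.closedBall (0 : ℂ) (C f)) :=
    isCompact_univ_pi fun f => isCompact_closedBall 0 (C f)
  refine h1.of_isClosed_subset (isClosed_MaxIdeal V) ?_
  intro φ hφ f _
  rw [mem_closedBall_zero_iff]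
  exact norm_le_of_bound hφ f (hC f)

/-- evaluation at a point -/
def evalAt {V : Set ℂ} (z : V) : Hinf V → ℂ := fun f => f.1 z

theorem evalAt_mem {V : Set ℂ} (z : V) : evalAt z ∈ MaxIdeal V :=
  ⟨⟨cst 1, one_ne_zero⟩, fun _ _ _ h => h z, fun _ _ _ h => h z, fun _ _ _ h => h z⟩

/-- cluster values are values of the Gelfand transform on the fibre -/
theorem mem_image_fibre {V : Set ℂ} (hb : Bornology.IsBounded V) (f : Hinf V)
    {ζ w : ℂ} (x : ℕ → V) (hx : Tendsto (fun n => (x n : ℂ)) atTop (𝓝 ζ))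
    (hf : Tendsto (fun n => f.1 (x n)) atTop (𝓝 w)) : w ∈ valuesOn V f (fibre V ζ) := by
  obtain ⟨φ, hφM, hφ⟩ := (isCompact_MaxIdeal V).exists_mapClusterPt (u := fun n => evalAt (x n))
    (f := atTop) (by simpa using ⟨0, fun b _ => evalAt_mem (x b)⟩)
  have key : ∀ (g : Hinf V) (a : ℂ), Tendsto (fun n => g.1 (x n)) atTop (𝓝 a) → φ g = a := by
    intro g a ha
    have h1 : MapClusterPt (φ g) atTop ((fun ψ : Hinf V → ℂ => ψ g) ∘ fun n => evalAt (x n)) :=
      hφ.continuousAt_comp (continuous_apply g).continuousAt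
    have h2 : ((fun ψ : Hinf V → ℂ => ψ g) ∘ fun n => evalAt (x n)) = fun n => g.1 (x n) := rfl
    rw [h2] at h1
    obtain ⟨τ, hτ, hlim⟩ := h1.tendsto_subseq
    exact tendsto_nhds_unique hlim (ha.comp hτ.tendsto_atTop)
  obtain ⟨C, hC⟩ := hb.exists_norm_le
  exact ⟨φ, ⟨hφM, mk (fun z => z) differentiableOn_id C hC, fun _ => rfl, key _ ζ hx⟩, key f w hf⟩

theorem logCap_pos {S K : Set ℂ} (hK : IsCompact K) (hKS : K ⊆ S) {μ : Measure ℂ}
    (hμ : IsProbabilityMeasure μ) (hμK : μ Kᶜ = 0)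
    (hE : ∫⁻ z, ∫⁻ w, kerPos z w ∂μ ∂μ < ⊤) : 0 < logCap S := by
  have h1 : 0 < EReal.exp (-(logEnergy μ)) := by
    rw [EReal.zero_lt_exp_iff, bot_lt_iff_ne_bot, Ne, EReal.neg_eq_bot_iff]
    unfold logEnergy
    have h2 : ((∫⁻ z, ∫⁻ w, kerPos z w ∂μ ∂μ : ENNReal) : EReal) -
        ((∫⁻ z, ∫⁻ w, kerNeg z w ∂μ ∂μ : ENNReal) : EReal) ≤
        ((∫⁻ z, ∫⁻ w, kerPos z w ∂μ ∂μ : ENNReal) : EReal) - 0 :=
      EReal.sub_le_sub le_rfl (EReal.coe_ennreal_nonneg _)
    rw [sub_zero] at h2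
    intro h
    rw [h, top_le_iff, EReal.coe_ennreal_eq_top_iff] at h2
    exact hE.ne h2
  refine h1.trans_le ?_
  unfold logCap
  exact le_iSup_of_le K (le_iSup_of_le ⟨hK, hKS⟩ (le_iSup_of_le μ (le_iSup_of_le ⟨hμ, hμK⟩ le_rfl)))

/-- **Negative answer to Q1.** There is a bounded open set `V` all of whose boundary points are
essential singularities of functions in `H^∞(V)`, together with `f ∈ H^∞(V)` and `ζ ∈ ∂V`, for which
`f(M_ζ) \ [f(V_ζ) ∪ R(f, ζ)]` has positive logarithmic capacity. -/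
theorem result : ∃ V : Set ℂ, IsOpen V ∧ Bornology.IsBounded V ∧
    (∀ ζ ∈ frontier V, ∃ g : Hinf V, IsEssSing V g ζ) ∧
    ∃ (f : Hinf V) (ζ : ℂ), ζ ∈ frontier V ∧ 0 < logCap (rangeDefect V f ζ) := by
  obtain ⟨D, hDE⟩ := MP83fe1a.exists_dat
  have hfd : DifferentiableOn ℂ D.f D.V := D.differentiableOn_f.mono D.V_subset_O
  refine ⟨D.V, D.isOpen_V, D.isBounded_V, ?_, ?_⟩
  · intro b hb
    obtain ⟨g, hg1, ⟨C, hg2⟩, hg3⟩ := D.exists_singular hb
    refine ⟨mk g hg1 C hg2, ?_⟩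
    rintro ⟨r, hr, G, hG, hGg⟩
    exact hg3 ⟨r, hr, G, hG, fun z hz => hGg ⟨z, hz⟩⟩
  · obtain ⟨ζ, hζ, hζ1, hζ2⟩ := D.exists_zeta
    set f : Hinf D.V := mk D.f hfd 8 (fun z hz => hz.2.le) with hf
    refine ⟨f, ζ, hζ, ?_⟩
    obtain ⟨μ, hμ, hμK, hE⟩ := MP83fe1a.exists_measure
    refine logCap_pos (K := (fun x : ℝ => (x : ℂ)) '' MP83fe1a.CE)
      (MP83fe1a.CE_compact.image Complex.continuous_ofReal) ?_ hμ hμK hE
    rintro _ ⟨w, hw, rfl⟩
    have hwE : w ∈ D.E := by rw [hDE]; exact hw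
    refine ⟨?_, ?_⟩
    · -- a value on the fibre
      have hex : ∀ n : ℕ, ∃ x : D.V, ‖(x : ℂ) - ζ‖ < 1 / ((n : ℝ) + 1) ∧
          ‖D.f x - w‖ < 2 / ((n : ℝ) + 1) := by
        intro n
        have hpos : (0 : ℝ) < 1 / ((n : ℝ) + 1) := by positivity
        obtain ⟨w', hw1, hw2⟩ := D.hgap w hwE (1 / ((n : ℝ) + 1)) hpos
        have hw8 : |w'| < 8 := by
          have h01 := D.hE01 w hwE
          have h2 : 1 / ((n : ℝ) + 1) ≤ 1 := by
            rw [div_le_one (by positivity)]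
            have : (0 : ℝ) ≤ n := Nat.cast_nonneg n
            linarith
          rw [abs_lt] at hw1 ⊢
          constructor <;> linarith
        obtain ⟨x, hx, hx1, hx2⟩ := D.cluster hζ1 hζ2 hw2 hw8 hpos
        refine ⟨⟨x, hx⟩, hx1, ?_⟩
        have h3 : ‖(w' : ℂ) - w‖ < 1 / ((n : ℝ) + 1) := by
          rw [← Complex.ofReal_sub, Complex.norm_real, Real.norm_eq_abs]; exact hw1
        have h4 : ‖D.f x - w‖ ≤ ‖D.f x - w'‖ + ‖(w' : ℂ) - w‖ := by
          have : D.f x - w = (D.f x - w') + ((w' : ℂ) - w) := by ring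
          rw [this]
          exact norm_add_le _ _
        have h5 : 2 / ((n : ℝ) + 1) = 1 / ((n : ℝ) + 1) + 1 / ((n : ℝ) + 1) := by ring
        rw [h5]
        linarith
      choose x hx1 hx2 using hex
      refine mem_image_fibre D.isBounded_V f x ?_ ?_
      · rw [tendsto_iff_norm_sub_tendsto_zero]
        exact squeeze_zero (fun n => norm_nonneg _) (fun n => (hx1 n).le)
          tendsto_one_div_add_atTop_nhds_zero_nat
      · rw [tendsto_iff_norm_sub_tendsto_zero]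
        refine squeeze_zero (fun n => norm_nonneg _) (fun n => (hx2 n).le) ?_
        have h6 := (tendsto_one_div_add_atTop_nhds_zero_nat (𝕜 := ℝ)).const_mul 2
        rw [mul_zero] at h6
        refine h6.congr fun n => ?_
        ring
    · rintro (⟨φ, ⟨hφ, -⟩, hφw⟩ | ⟨x, -, hx⟩)
      · -- the Shilov boundary
        have hbd : IsClosedBoundary D.V {ψ | ψ ∈ MaxIdeal D.V ∧ 3 ≤ ‖ψ f‖} := by
          have hclosed : IsClosed {ψ | ψ ∈ MaxIdeal D.V ∧ 3 ≤ ‖ψ f‖} :=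
            (isClosed_MaxIdeal D.V).inter
              (isClosed_le continuous_const (continuous_apply f).norm)
          refine ⟨fun _ h => h.1, hclosed, ?_⟩
          intro h ψ hψ
          have hne : {ψ | ψ ∈ MaxIdeal D.V ∧ 3 ≤ ‖ψ f‖}.Nonempty := by
            obtain ⟨y, hy, -, hy2⟩ := D.cluster hζ1 hζ2 (w' := 4) (δ := 1)
              (fun h => by have := (D.hE01 _ h).2; norm_num at this) (by norm_num) one_pos
            refine ⟨evalAt ⟨y, hy⟩, evalAt_mem _, ?_⟩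
            show 3 ≤ ‖D.f y‖
            have h1 : ‖((4 : ℝ) : ℂ)‖ ≤ ‖D.f y‖ + ‖D.f y - (4 : ℝ)‖ := by
              have e : ((4 : ℝ) : ℂ) = D.f y - (D.f y - (4 : ℝ)) := by ring
              calc ‖((4 : ℝ) : ℂ)‖ = ‖D.f y - (D.f y - (4 : ℝ))‖ := by rw [← e]
                _ ≤ _ := norm_sub_le _ _
            rw [Complex.norm_real, Real.norm_eq_abs, abs_of_pos (by norm_num)] at h1
            linarith
          have hcomp : IsCompact {ψ | ψ ∈ MaxIdeal D.V ∧ 3 ≤ ‖ψ f‖} :=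
            (isCompact_MaxIdeal D.V).of_isClosed_subset hclosed fun _ h => h.1
          obtain ⟨ψ₀, hψ₀, hmax⟩ := hcomp.exists_isMaxOn hne
            ((continuous_apply h).norm.continuousOn)
          refine ⟨ψ₀, hψ₀, norm_le_of_bound hψ h fun z => ?_⟩
          obtain ⟨⟨H, hH, hHh⟩, C, hC⟩ := h.2
          rw [hHh z]
          refine D.max_principle z.2 (M := C) hH (fun y hy => ?_) (fun y hy h3 => ?_) (norm_nonneg _)
          · have e := hHh ⟨y, hy⟩
            rw [← e]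
            exact hC _
          · have e := hHh ⟨y, hy⟩
            rw [← e]
            exact hmax (show evalAt ⟨y, hy⟩ ∈ {ψ | ψ ∈ MaxIdeal D.V ∧ 3 ≤ ‖ψ f‖} from
              ⟨evalAt_mem _, h3⟩)
        have h3 : 3 ≤ ‖φ f‖ := (hφ _ hbd).2
        have h4 : φ f = w := hφw
        rw [h4, Complex.norm_real, Real.norm_eq_abs, abs_of_nonneg (D.hE01 w hwE).1] at h3
        linarith [(D.hE01 w hwE).2]
      · exact D.f_notMem_E (x 0).2.1 hwE (hx 0)

end Pool.Agent.Results.MP_83fe1a_an.RangeDefect
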